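import Mathlib

set_option autoImplicit false

/-! # Random divisors on the projective line and points of bounded degree: definitions -/

namespace Pool.Agent.R870.RQ

open Polynomial

/-- the polynomial with the coefficients `v_0, …, v_d` -/
noncomputable def poly {d : ℕ} (v : Fin (d + 1) → ℤ) : ℤ[X] := ∑ k, C (v k) * X ^ (k : ℕ)

/-- the Mahler measure of `f` -/
noncomputable def mm (f : ℤ[X]) : ℝ := (f.map (Int.castRingHom ℂ)).mahlerMeasure

/-- the sum of `log p` over the primes `p ∉ S` that divide `t` -/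
noncomputable def N1 (S : Finset ℕ) (t : ℤ) : ℝ := ∑ p ∈ t.natAbs.primeFactors \ S, Real.log p

/-- the resultant of `f` and the form of degree `d` with the coefficients `v_0, …, v_d` -/
noncomputable def res {d : ℕ} (f : ℤ[X]) (v : Fin (d + 1) → ℤ) : ℤ :=
  f.resultant (poly v) f.natDegree d

/-- the truncated inequality with the term `r + 1`, `r` the degree of `f` -/
def Ineq {s : ℕ} (d : Fin s → ℕ) (S : Finset ℕ) (ε κ : ℝ) (H : ℕ)
    (G : (i : Fin s) → Fin (d i + 1) → ℤ) (f : ℤ[X]) : Prop :=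
  ((∑ i, d i : ℕ) - (f.natDegree + 1) - ε) * Real.log (mm f) + κ * Real.log H ≤
    ∑ i, N1 S (res f (G i))

/-- the truncated inequality with the term `2` and the discriminant, for quadratic points:
`D₀` is the squarefree part of the discriminant of `f` -/
def IneqQ {s : ℕ} (d : Fin s → ℕ) (S : Finset ℕ) (ε κ : ℝ) (H : ℕ)
    (G : (i : Fin s) → Fin (d i + 1) → ℤ) (f : ℤ[X]) : Prop :=
  ∀ D₀ k : ℤ, Squarefree D₀ → f.coeff 1 ^ 2 - 4 * f.coeff 2 * f.coeff 0 = D₀ * k ^ 2 →
    ((∑ i, d i : ℕ) - 2 - ε) * Real.log (mm f) - Real.log |(D₀ : ℝ)| + κ * Real.log H ≤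
      ∑ i, N1 S (res f (G i))

/-- the systems of forms of degrees `d_i` with coefficients of absolute value at most `H` for which
one of the two inequalities fails for some point -/
def Bad {s : ℕ} (r : ℕ) (d : Fin s → ℕ) (S : Finset ℕ) (ε κ : ℝ) (H : ℕ) :
    Set ((i : Fin s) → Fin (d i + 1) → ℤ) :=
  {G | (∀ i k, |G i k| ≤ H) ∧ ∃ f : ℤ[X], Irreducible f ∧ 1 ≤ f.natDegree ∧ f.natDegree ≤ r ∧
    mm f ^ (∑ i, d i) ≤ (H : ℝ) ^ ((s : ℝ) - κ) ∧ (∀ i, res f (G i) ≠ 0) ∧
    ¬ (Ineq d S ε κ H G f ∧ (f.natDegree = 2 → IneqQ d S ε κ H G f))}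

end Pool.Agent.R870.RQ
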