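import Mathlib
import Pool.Agent.R870.RQ.Defs
import Pool.Agent.R870.RV.Count

set_option autoImplicit false

/-! # Resultants with random forms -/

namespace Pool.Agent.R870.RQ

open Polynomial Finset

theorem poly_natDegree {d : ℕ} (v : Fin (d + 1) → ℤ) : (poly v).natDegree ≤ d := by
  unfold poly
  refine natDegree_sum_le_of_forall_le _ _ fun k _ => ?_
  exact (natDegree_C_mul_X_pow_le _ _).trans (Nat.lt_succ_iff.1 k.2)

theorem poly_succ {d : ℕ} (v : Fin (d + 1) → ℤ) :
    poly v = C (v 0) + ∑ k : Fin d, C (v k.succ) * X ^ ((k : ℕ) + 1) := by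
  unfold poly
  rw [Fin.sum_univ_succ]
  simp

/-- the resultant over `ℂ` -/
theorem res_cast {d : ℕ} (f : ℤ[X]) (v : Fin (d + 1) → ℤ) :
    ((res f v : ℤ) : ℂ) = (f.leadingCoeff : ℂ) ^ d *
      ((f.map (Int.castRingHom ℂ)).roots.map
        (fun z => ((poly v).map (Int.castRingHom ℂ)).eval z)).prod := by
  have hinj : Function.Injective (Int.castRingHom ℂ) := RingHom.injective_int _
  have h1 := resultant_map_map f (poly v) f.natDegree d (Int.castRingHom ℂ)
  have h2 := resultant_eq_prod_eval (f.map (Int.castRingHom ℂ))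
    ((poly v).map (Int.castRingHom ℂ)) d (natDegree_map_le.trans (poly_natDegree v))
    (IsAlgClosed.splits _)
  rw [natDegree_map_eq_of_injective hinj, leadingCoeff_map_of_injective hinj] at h2
  rw [h1] at h2
  unfold res
  exact h2

/-- the values of a polynomial in the constant coefficient -/
theorem card_const {d : ℕ} (f : ℤ[X]) (hf : 1 ≤ f.natDegree) (w : Fin d → ℤ) (t : ℤ) (H : ℕ) :
    ((Finset.Icc (-(H : ℤ)) H).filter (fun c => res f (Fin.cons c w : Fin (d + 1) → ℤ) = t)).card ≤
      f.natDegree := by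
  classical
  have hf0 : f ≠ 0 := by
    rintro rfl
    simp at hf
  have hinj : Function.Injective (Int.castRingHom ℂ) := RingHom.injective_int _
  set fc := f.map (Int.castRingHom ℂ) with hfc
  set g0 : ℂ[X] := ∑ k : Fin d, C ((w k : ℤ) : ℂ) * X ^ ((k : ℕ) + 1) with hg0
  have hlc : (f.leadingCoeff : ℂ) ^ d ≠ 0 := by
    apply pow_ne_zero
    exact_mod_cast leadingCoeff_ne_zero.2 hf0
  have hcard : fc.roots.card = f.natDegree := by
    rw [splits_iff_card_roots.1 (IsAlgClosed.splits fc), hfc, natDegree_map_eq_of_injective hinj]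
  have heval : ∀ (c : ℤ) (z : ℂ), ((poly (Fin.cons c w : Fin (d + 1) → ℤ)).map
      (Int.castRingHom ℂ)).eval z = (c : ℂ) + g0.eval z := by
    intro c z
    rw [poly_succ]
    simp [hg0, Polynomial.eval_finsetSum, Polynomial.map_sum]
  -- the polynomial in c
  set Q : ℂ[X] := (fc.roots.map (fun z => X + C (g0.eval z))).prod with hQ
  have hQm : Q.Monic := by
    rw [hQ]
    apply monic_multiset_prod_of_monic
    intro z _
    exact monic_X_add_C _
  have hQd : Q.natDegree = f.natDegree := by
    rw [hQ, natDegree_multiset_prod_of_monic]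
    · rw [Multiset.map_map]
      simp only [Function.comp_def, natDegree_X_add_C]
      rw [Multiset.map_const', Multiset.sum_replicate, hcard]
      simp
    · intro g hg
      obtain ⟨z, _, rfl⟩ := Multiset.mem_map.1 hg
      exact monic_X_add_C _
  set t' : ℂ := (t : ℂ) / (f.leadingCoeff : ℂ) ^ d with ht'
  have hR : (Q - C t').Monic := by
    apply hQm.sub_of_left
    rw [degree_eq_natDegree hQm.ne_zero, hQd]
    refine degree_C_le.trans_lt ?_
    exact_mod_cast hf
  have hRd : (Q - C t').natDegree = f.natDegree := by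
    rw [natDegree_sub_C, hQd]
  have hsub : ((Finset.Icc (-(H : ℤ)) H).filter
      (fun c => res f (Fin.cons c w : Fin (d + 1) → ℤ) = t)).image (fun c : ℤ => (c : ℂ)) ⊆
      (Q - C t').roots.toFinset := by
    intro z hz
    obtain ⟨c, hc, rfl⟩ := Finset.mem_image.1 hz
    have hc2 := (Finset.mem_filter.1 hc).2
    rw [Multiset.mem_toFinset, mem_roots hR.ne_zero, IsRoot.def, eval_sub, eval_C, ht', hQ,
      eval_multiset_prod, Multiset.map_map]
    have h1 := res_cast f (Fin.cons c w : Fin (d + 1) → ℤ)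
    rw [hc2] at h1
    rw [h1, mul_div_cancel_left₀ _ hlc, sub_eq_zero]
    congr 1
    apply Multiset.map_congr rfl
    intro z _
    simp only [Function.comp_def, eval_add, eval_X, eval_C]
    rw [heval]
  have h3 := Finset.card_le_card hsub
  rw [Finset.card_image_of_injective _ Int.cast_injective] at h3
  exact h3.trans ((Multiset.toFinset_card_le _).trans ((card_roots' _).trans_eq hRd))

/-- the box of coefficient vectors -/
noncomputable def box (d H : ℕ) : Finset (Fin (d + 1) → ℤ) := Fintype.piFinset fun _ => Finset.Icc (-(H : ℤ)) H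

theorem mem_box {d H : ℕ} {v : Fin (d + 1) → ℤ} : v ∈ box d H ↔ ∀ k, |v k| ≤ H := by
  unfold box
  rw [Fintype.mem_piFinset]
  exact forall_congr' fun k => by rw [Finset.mem_Icc, ← abs_le]

theorem card_box (d H : ℕ) : (box d H).card = (2 * H + 1) ^ (d + 1) := by
  unfold box
  rw [Fintype.card_piFinset, Finset.prod_const, Finset.card_univ, Fintype.card_fin, Int.card_Icc]
  congr 1
  omega

/-- the number of the forms with a given resultant -/
theorem card_res {d : ℕ} (f : ℤ[X]) (hf : 1 ≤ f.natDegree) (t : ℤ) (H : ℕ) :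
    ((box d H).filter (fun v => res f v = t)).card ≤ f.natDegree * (2 * H + 1) ^ d := by
  classical
  have h1 := Finset.card_le_mul_card_image (f := fun v : Fin (d + 1) → ℤ => (Fin.tail v : Fin d → ℤ))
    ((box d H).filter (fun v => res f v = t)) f.natDegree (by
      intro w _
      refine le_trans ?_ (card_const f hf w t H)
      apply Finset.card_le_card_of_injOn (fun v => v 0)
      · intro v hv
        obtain ⟨hv1, hv2⟩ := Finset.mem_filter.1 (Finset.mem_coe.1 hv)
        obtain ⟨hv3, hv4⟩ := Finset.mem_filter.1 hv1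
        rw [Finset.mem_coe, Finset.mem_filter, Finset.mem_Icc, ← abs_le]
        refine ⟨mem_box.1 hv3 0, ?_⟩
        rw [← hv2, Fin.cons_self_tail]
        exact hv4
      · intro v hv v' hv' h
        have hv2 := (Finset.mem_filter.1 (Finset.mem_coe.1 hv)).2
        have hv2' := (Finset.mem_filter.1 (Finset.mem_coe.1 hv')).2
        simp only at h hv2 hv2'
        rw [← Fin.cons_self_tail v, ← Fin.cons_self_tail v', h, hv2, hv2'])
  refine h1.trans (Nat.mul_le_mul_left _ ?_)
  have h2 : ((box d H).filter (fun v => res f v = t)).image (fun v : Fin (d + 1) → ℤ =>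
      (Fin.tail v : Fin d → ℤ)) ⊆ Fintype.piFinset fun _ => Finset.Icc (-(H : ℤ)) H := by
    intro w hw
    obtain ⟨v, hv, rfl⟩ := Finset.mem_image.1 hw
    rw [Fintype.mem_piFinset]
    intro k
    rw [Finset.mem_Icc, ← abs_le]
    exact mem_box.1 (Finset.mem_filter.1 hv).1 k.succ
  refine (Finset.card_le_card h2).trans_eq ?_
  rw [Fintype.card_piFinset, Finset.prod_const, Finset.card_univ, Fintype.card_fin, Int.card_Icc]
  congr 1
  omega

theorem mm_eq (f : ℤ[X]) : mm f = |(f.leadingCoeff : ℝ)| *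
    ((f.map (Int.castRingHom ℂ)).roots.map (fun a => max 1 ‖a‖)).prod := by
  have hinj : Function.Injective (Int.castRingHom ℂ) := RingHom.injective_int _
  unfold mm
  rw [mahlerMeasure_eq_leadingCoeff_mul_prod_roots, leadingCoeff_map_of_injective hinj]
  congr 1
  rw [eq_intCast, Complex.norm_intCast]

theorem one_le_mm {f : ℤ[X]} (hf : f ≠ 0) : 1 ≤ mm f := one_le_mahlerMeasure_of_ne_zero hf

theorem abs_coeff_le (f : ℤ[X]) (k : ℕ) : |(f.coeff k : ℝ)| ≤ 2 ^ f.natDegree * mm f := by
  have hinj : Function.Injective (Int.castRingHom ℂ) := RingHom.injective_int _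
  have h := norm_coeff_le_choose_mul_mahlerMeasure k (f.map (Int.castRingHom ℂ))
  rw [coeff_map, eq_intCast, Complex.norm_intCast, natDegree_map_eq_of_injective hinj] at h
  refine h.trans ?_
  apply mul_le_mul_of_nonneg_right _ (mahlerMeasure_nonneg _)
  exact_mod_cast Nat.choose_le_two_pow _ _

/-- the size of the resultant -/
theorem abs_res_le {d : ℕ} (f : ℤ[X]) (v : Fin (d + 1) → ℤ) (H : ℕ) (hv : ∀ k, |v k| ≤ H) :
    |(res f v : ℝ)| ≤ (((d : ℝ) + 1) * H) ^ f.natDegree * mm f ^ d := by
  have hinj : Function.Injective (Int.castRingHom ℂ) := RingHom.injective_int _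
  have h1 : |(res f v : ℝ)| = ‖((res f v : ℤ) : ℂ)‖ := by
    rw [Complex.norm_intCast]
  set fc := f.map (Int.castRingHom ℂ) with hfc
  have hcard : fc.roots.card = f.natDegree := by
    rw [splits_iff_card_roots.1 (IsAlgClosed.splits fc), hfc, natDegree_map_eq_of_injective hinj]
  rw [h1, res_cast, norm_mul, norm_pow, Complex.norm_intCast, mm_eq, ← hfc]
  have h2 : ∀ z : ℂ, ‖((poly v).map (Int.castRingHom ℂ)).eval z‖ ≤
      (((d : ℝ) + 1) * H) * (max 1 ‖z‖) ^ d := by
    intro z
    unfold poly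
    rw [Polynomial.map_sum, Polynomial.eval_finsetSum]
    refine (norm_sum_le _ _).trans ?_
    have h3 : ∀ k ∈ (Finset.univ : Finset (Fin (d + 1))),
        ‖(((C (v k) * X ^ (k : ℕ) : ℤ[X])).map (Int.castRingHom ℂ)).eval z‖ ≤
        (H : ℝ) * (max 1 ‖z‖) ^ d := by
      intro k _
      rw [Polynomial.map_mul, map_C, Polynomial.map_pow, map_X, eval_mul, eval_C, eval_pow, eval_X,
        norm_mul, norm_pow, eq_intCast, Complex.norm_intCast]
      have h4 : |(v k : ℝ)| ≤ H := by exact_mod_cast hv k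
      have h5 : ‖z‖ ^ (k : ℕ) ≤ (max 1 ‖z‖) ^ d :=
        (pow_le_pow_left₀ (norm_nonneg z) (le_max_right _ _) _).trans
          (pow_le_pow_right₀ (le_max_left _ _) (Nat.lt_succ_iff.1 k.2))
      exact mul_le_mul h4 h5 (by positivity) (by positivity)
    refine (Finset.sum_le_sum h3).trans (le_of_eq ?_)
    rw [Finset.sum_const, Finset.card_univ, Fintype.card_fin, nsmul_eq_mul]
    push_cast
    ring
  have h6 : ‖(fc.roots.map (fun z => ((poly v).map (Int.castRingHom ℂ)).eval z)).prod‖ ≤
      (((d : ℝ) + 1) * H) ^ f.natDegree * (fc.roots.map (fun a => max 1 ‖a‖)).prod ^ d := by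
    rw [← hcard]
    have hA : 0 ≤ ((d : ℝ) + 1) * H := by positivity
    generalize ((d : ℝ) + 1) * H = A at h2 hA
    generalize fc.roots = m
    induction m using Multiset.induction_on with
    | empty => simp
    | cons a m ih =>
      rw [Multiset.map_cons, Multiset.prod_cons, Multiset.map_cons, Multiset.prod_cons,
        Multiset.card_cons, norm_mul, pow_succ, mul_pow]
      calc _ ≤ (A * (max 1 ‖a‖) ^ d) *
          (A ^ m.card * (m.map (fun a => max 1 ‖a‖)).prod ^ d) :=
            mul_le_mul (h2 a) ih (norm_nonneg _) (by positivity)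
        _ = _ := by ring
  calc |(f.leadingCoeff : ℝ)| ^ d *
      ‖(fc.roots.map (fun z => ((poly v).map (Int.castRingHom ℂ)).eval z)).prod‖
      ≤ |(f.leadingCoeff : ℝ)| ^ d * ((((d : ℝ) + 1) * H) ^ f.natDegree *
        (fc.roots.map (fun a => max 1 ‖a‖)).prod ^ d) :=
        mul_le_mul_of_nonneg_left h6 (by positivity)
    _ = _ := by
      rw [mul_pow |(f.leadingCoeff : ℝ)|]
      exact mul_left_comm _ _ _

open Pool.Agent.R870.RC (radS NZ mem_NZ radS_pos sum_radS)

theorem N1_eq (S : Finset ℕ) (t : ℤ) : N1 S t = Real.log (radS S t) := by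
  unfold N1 radS
  rw [Nat.cast_prod, Real.log_prod]
  intro p hp
  have := (Nat.prime_of_mem_primeFactors (Finset.mem_sdiff.1 hp).1).ne_zero
  exact_mod_cast this

/-- the sum over the forms of the inverse of the radical of the resultant -/
theorem sum_box {d : ℕ} (f : ℤ[X]) (hf : 1 ≤ f.natDegree) (S : Finset ℕ) (H T : ℕ)
    (hT : (((d : ℝ) + 1) * H) ^ f.natDegree * mm f ^ d ≤ T) :
    ∑ v ∈ (box d H).filter (fun v => res f v ≠ 0), (1 : ℝ) / radS S (res f v) ≤
      (f.natDegree * (2 * (H : ℝ) + 1) ^ d) * ∑ t ∈ NZ T, (1 : ℝ) / radS S t := by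
  classical
  have h1 : ∀ v ∈ (box d H).filter (fun v => res f v ≠ 0), res f v ∈ NZ T := by
    intro v hv
    obtain ⟨hv1, hv2⟩ := Finset.mem_filter.1 hv
    rw [mem_NZ]
    refine ⟨hv2, ?_⟩
    have h2 := (abs_res_le f v H (mem_box.1 hv1)).trans hT
    exact_mod_cast h2
  rw [← Finset.sum_fiberwise_of_maps_to h1, Finset.mul_sum]
  apply Finset.sum_le_sum
  intro t _
  have h3 : ∑ v ∈ ((box d H).filter (fun v => res f v ≠ 0)).filter (fun v => res f v = t),
      (1 : ℝ) / radS S (res f v) =
      (((box d H).filter (fun v => res f v ≠ 0)).filter (fun v => res f v = t)).card *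
        (1 / (radS S t : ℝ)) := by
    rw [← nsmul_eq_mul, ← Finset.sum_const]
    refine Finset.sum_congr rfl fun v hv => ?_
    rw [(Finset.mem_filter.1 hv).2]
  rw [h3]
  have h4 : (0 : ℝ) ≤ 1 / (radS S t : ℝ) := div_nonneg zero_le_one (Nat.cast_nonneg _)
  apply mul_le_mul_of_nonneg_right _ h4
  have h5 : (((box d H).filter (fun v => res f v ≠ 0)).filter (fun v => res f v = t)).card ≤
      f.natDegree * (2 * H + 1) ^ d := by
    refine (Finset.card_le_card ?_).trans (card_res f hf t H)
    intro v hv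
    rw [Finset.mem_filter] at hv ⊢
    exact ⟨(Finset.mem_filter.1 hv.1).1, hv.2⟩
  exact_mod_cast h5

/-- the systems of forms for which the product of the radicals is at most `R` -/
noncomputable def badf {s : ℕ} (d : Fin s → ℕ) (S : Finset ℕ) (H : ℕ) (R : ℝ) (f : ℤ[X]) :
    Finset ((i : Fin s) → Fin (d i + 1) → ℤ) := by
  classical
  exact (Fintype.piFinset fun i => box (d i) H).filter (fun G => (∀ i, res f (G i) ≠ 0) ∧
    ((∏ i, radS S (res f (G i)) : ℕ) : ℝ) ≤ R)

theorem card_badf {s : ℕ} (d : Fin s → ℕ) (S : Finset ℕ) (H T : ℕ) (R : ℝ) (hR : 0 ≤ R)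
    (f : ℤ[X]) (hf : 1 ≤ f.natDegree)
    (hT : ∀ i, (((d i : ℝ) + 1) * H) ^ f.natDegree * mm f ^ d i ≤ T) :
    ((badf d S H R f).card : ℝ) ≤ R * ∏ i, ((f.natDegree * (2 * (H : ℝ) + 1) ^ d i) *
      ∑ t ∈ NZ T, (1 : ℝ) / radS S t) := by
  classical
  have h1 : ((badf d S H R f).card : ℝ) ≤
      ∑ G ∈ badf d S H R f, R * ∏ i, ((1 : ℝ) / radS S (res f (G i))) := by
    rw [← nsmul_one, ← Finset.sum_const]
    apply Finset.sum_le_sum
    intro G hG
    unfold badf at hG
    have h2 := (Finset.mem_filter.1 hG).2.2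
    rw [Nat.cast_prod] at h2
    have h3 : (0 : ℝ) < ∏ i, (radS S (res f (G i)) : ℝ) :=
      Finset.prod_pos fun i _ => by exact_mod_cast radS_pos S _
    rw [Finset.prod_div_distrib, Finset.prod_const_one, mul_one_div, le_div_iff₀ h3, one_mul]
    exact h2
  refine h1.trans ?_
  rw [← Finset.mul_sum]
  apply mul_le_mul_of_nonneg_left _ hR
  have h4 : badf d S H R f ⊆ Fintype.piFinset fun i =>
      (box (d i) H).filter (fun v => res f v ≠ 0) := by
    intro G hG
    unfold badf at hG
    obtain ⟨hG1, hG2, _⟩ := Finset.mem_filter.1 hG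
    rw [Fintype.mem_piFinset] at hG1 ⊢
    intro i
    rw [Finset.mem_filter]
    exact ⟨hG1 i, hG2 i⟩
  refine (Finset.sum_le_sum_of_subset_of_nonneg h4 fun G _ _ =>
    Finset.prod_nonneg fun i _ => div_nonneg zero_le_one (Nat.cast_nonneg _)).trans ?_
  rw [← Finset.prod_univ_sum (fun i => (box (d i) H).filter (fun v => res f v ≠ 0))
    (fun i v => (1 : ℝ) / radS S (res f v))]
  apply Finset.prod_le_prod
  · intro i _
    exact Finset.sum_nonneg fun v _ => div_nonneg zero_le_one (Nat.cast_nonneg _)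
  · intro i _
    exact sum_box f hf S H T (hT i)

end Pool.Agent.R870.RQ
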