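import Mathlib
import Pool.Agent.R870.RQ.Res
import Pool.Agent.H510R2.Div

set_option autoImplicit false

/-! # The sums over the points -/

namespace Pool.Agent.R870.RQ

open Polynomial Finset

/-- the weight `(1 + |a|) ^ (-(1 + δ))` -/
noncomputable def phi (δ : ℝ) (a : ℤ) : ℝ := (1 + |(a : ℝ)|) ^ (-(1 + δ))

theorem phi_nonneg (δ : ℝ) (a : ℤ) : 0 ≤ phi δ a := Real.rpow_nonneg (by positivity) _

theorem phi_bound (δ : ℝ) (hδ : 0 < δ) : ∃ Φ : ℝ, 0 ≤ Φ ∧ ∀ Z : Finset ℤ, ∑ a ∈ Z, phi δ a ≤ Φ := by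
  have h1 : Summable fun n : ℕ => ((n : ℝ) + 1) ^ (-(1 + δ)) := by
    have h := (summable_nat_add_iff 1).2 (Real.summable_nat_rpow.2 (show -(1 + δ) < -1 by linarith))
    refine h.congr fun n => ?_
    push_cast
    rfl
  have h2 : Summable fun a : ℤ => phi δ a := by
    rw [summable_int_iff_summable_nat_and_neg]
    constructor
    · refine h1.congr fun n => ?_
      unfold phi
      rw [Int.cast_natCast, abs_of_nonneg (Nat.cast_nonneg n), add_comm]
    · refine h1.congr fun n => ?_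
      unfold phi
      rw [Int.cast_neg, Int.cast_natCast, abs_neg, abs_of_nonneg (Nat.cast_nonneg n), add_comm]
  exact ⟨∑' a, phi δ a, tsum_nonneg fun a => phi_nonneg δ a, fun Z =>
    h2.sum_le_tsum Z fun a _ => phi_nonneg δ a⟩

/-- the sum over the polynomials of degree `r` -/
theorem sum_deg (r : ℕ) (ε : ℝ) (hε : 0 < ε) : ∃ K : ℝ, ∀ Z : Finset ℤ[X],
    (∀ f ∈ Z, f.natDegree = r ∧ f ≠ 0) → ∑ f ∈ Z, mm f ^ (-((r : ℝ) + 1 + ε / 2)) ≤ K := by
  classical
  set δ : ℝ := ε / (2 * (r + 1)) with hδ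
  have hδ0 : 0 < δ := by rw [hδ]; positivity
  obtain ⟨Φ, hΦ, hphi⟩ := phi_bound δ hδ0
  set c : ℝ := 2 ^ (r + 1) with hc
  have hc0 : 0 < c := by rw [hc]; positivity
  refine ⟨(c ^ (1 + δ) * Φ) ^ (r + 1), fun Z hZ => ?_⟩
  have h1 : ∀ f ∈ Z, mm f ^ (-((r : ℝ) + 1 + ε / 2)) ≤
      ∏ k : Fin (r + 1), (c ^ (1 + δ) * phi δ (f.coeff k)) := by
    intro f hf
    obtain ⟨hdeg, hf0⟩ := hZ f hf
    have hmm := one_le_mm hf0
    have hmm0 : 0 < mm f := by linarith
    have h2 : mm f ^ (-((r : ℝ) + 1 + ε / 2)) = ∏ _k : Fin (r + 1), mm f ^ (-(1 + δ)) := by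
      rw [Finset.prod_const, Finset.card_univ, Fintype.card_fin, ← Real.rpow_natCast,
        ← Real.rpow_mul hmm0.le]
      congr 1
      rw [hδ]
      push_cast
      field_simp
    rw [h2]
    apply Finset.prod_le_prod
    · intro k _
      exact Real.rpow_nonneg hmm0.le _
    · intro k _
      have h3 := abs_coeff_le f k
      rw [hdeg] at h3
      have h4 : 1 + |(f.coeff k : ℝ)| ≤ c * mm f := by
        rw [hc, pow_succ]
        have h5 : (1 : ℝ) ≤ 2 ^ r * mm f :=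
          one_le_mul_of_one_le_of_one_le (one_le_pow₀ (by norm_num)) hmm
        nlinarith
      unfold phi
      have h6 : (c * mm f) ^ (-(1 + δ)) ≤ (1 + |(f.coeff k : ℝ)|) ^ (-(1 + δ)) :=
        Real.rpow_le_rpow_of_nonpos (by positivity) h4 (by linarith)
      rw [Real.mul_rpow hc0.le hmm0.le] at h6
      have h7 : c ^ (1 + δ) * c ^ (-(1 + δ)) = 1 := by
        rw [← Real.rpow_add hc0, add_neg_cancel, Real.rpow_zero]
      calc mm f ^ (-(1 + δ)) = c ^ (1 + δ) * (c ^ (-(1 + δ)) * mm f ^ (-(1 + δ))) := by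
            rw [← mul_assoc, h7, one_mul]
        _ ≤ _ := mul_le_mul_of_nonneg_left h6 (Real.rpow_nonneg hc0.le _)
  refine (Finset.sum_le_sum h1).trans ?_
  -- sum over vectors
  set h : (Fin (r + 1) → ℤ) → ℝ := fun v => ∏ k, (c ^ (1 + δ) * phi δ (v k)) with hh
  have hinj : Set.InjOn (fun (f : ℤ[X]) (k : Fin (r + 1)) => f.coeff k) (Z : Set ℤ[X]) := by
    intro f hf g hg hfg
    ext k
    by_cases hk : k < r + 1
    · exact congrFun hfg ⟨k, hk⟩
    · rw [coeff_eq_zero_of_natDegree_lt, coeff_eq_zero_of_natDegree_lt]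
      · rw [(hZ g (Finset.mem_coe.1 hg)).1]; omega
      · rw [(hZ f (Finset.mem_coe.1 hf)).1]; omega
  have h3 : ∑ f ∈ Z, ∏ k : Fin (r + 1), (c ^ (1 + δ) * phi δ (f.coeff k)) =
      ∑ v ∈ Z.image (fun (f : ℤ[X]) (k : Fin (r + 1)) => f.coeff k), h v := by
    rw [Finset.sum_image hinj]
  rw [h3]
  have h4 : Z.image (fun (f : ℤ[X]) (k : Fin (r + 1)) => f.coeff k) ⊆
      Fintype.piFinset fun k : Fin (r + 1) => Z.image (fun f : ℤ[X] => f.coeff k) := by
    intro v hv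
    obtain ⟨f, hf, rfl⟩ := Finset.mem_image.1 hv
    rw [Fintype.mem_piFinset]
    exact fun k => Finset.mem_image_of_mem _ hf
  have hcphi : ∀ a : ℤ, 0 ≤ c ^ (1 + δ) * phi δ a := fun a =>
    mul_nonneg (Real.rpow_nonneg hc0.le _) (phi_nonneg δ a)
  refine (Finset.sum_le_sum_of_subset_of_nonneg h4 fun v _ _ =>
    Finset.prod_nonneg fun k _ => hcphi _).trans ?_
  rw [← Finset.prod_univ_sum (fun k : Fin (r + 1) => Z.image (fun f : ℤ[X] => f.coeff k))
    (fun _ a => c ^ (1 + δ) * phi δ a)]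
  have h5 : ∀ k : Fin (r + 1), ∑ a ∈ Z.image (fun f : ℤ[X] => f.coeff k), c ^ (1 + δ) * phi δ a ≤
      c ^ (1 + δ) * Φ := by
    intro k
    rw [← Finset.mul_sum]
    exact mul_le_mul_of_nonneg_left (hphi _) (Real.rpow_nonneg hc0.le _)
  refine (Finset.prod_le_prod (fun k _ => Finset.sum_nonneg fun a _ => hcphi a)
    fun k _ => h5 k).trans (le_of_eq ?_)
  rw [Finset.prod_const, Finset.card_univ, Fintype.card_fin]

/-- the number of the divisors of a nonzero integer -/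
theorem int_div (e : ℝ) (he : 0 < e) : ∃ C : ℝ, 0 < C ∧ ∀ m : ℤ, m ≠ 0 → ∀ Z : Finset ℤ,
    (∀ a ∈ Z, a ∣ m) → (Z.card : ℝ) ≤ C * |(m : ℝ)| ^ e := by
  classical
  obtain ⟨C, hC, h⟩ := Pool.Agent.H510R2.divisor_bound e he
  refine ⟨2 * C, by positivity, fun m hm Z hZ => ?_⟩
  have h1 : Z ⊆ (m.natAbs.divisors.image (fun n : ℕ => (n : ℤ))) ∪
      (m.natAbs.divisors.image (fun n : ℕ => -(n : ℤ))) := by
    intro a ha
    have h2 : a.natAbs ∈ m.natAbs.divisors := by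
      rw [Nat.mem_divisors]
      exact ⟨Int.natAbs_dvd_natAbs.2 (hZ a ha), Int.natAbs_ne_zero.2 hm⟩
    rw [Finset.mem_union, Finset.mem_image, Finset.mem_image]
    rcases Int.natAbs_eq a with h3 | h3
    · exact Or.inl ⟨a.natAbs, h2, h3.symm⟩
    · exact Or.inr ⟨a.natAbs, h2, h3.symm⟩
  have h2 : Z.card ≤ m.natAbs.divisors.card + m.natAbs.divisors.card :=
    (Finset.card_le_card h1).trans ((Finset.card_union_le _ _).trans
      (add_le_add Finset.card_image_le Finset.card_image_le))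
  have h3 := h m.natAbs (Int.natAbs_pos.2 hm)
  rw [Nat.cast_natAbs, Int.cast_abs] at h3
  have h4 : (Z.card : ℝ) ≤ m.natAbs.divisors.card + m.natAbs.divisors.card := by exact_mod_cast h2
  linarith

/-- the quadratic points with the discriminants -/
def PQ (i : ℤ[X] × ℤ × ℤ) : Prop := Irreducible i.1 ∧ i.1.natDegree = 2 ∧ Squarefree i.2.1 ∧
  i.1.coeff 1 ^ 2 - 4 * i.1.coeff 2 * i.1.coeff 0 = i.2.1 * i.2.2 ^ 2

theorem PQ_ne {i : ℤ[X] × ℤ × ℤ} (hi : PQ i) : i.1 ≠ 0 ∧ i.1.coeff 2 ≠ 0 ∧ i.1.coeff 0 ≠ 0 ∧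
    i.2.1 ≠ 0 ∧ i.2.2 ≠ 0 := by
  obtain ⟨hirr, hdeg, hsq, hdisc⟩ := hi
  have h0 : i.1 ≠ 0 := hirr.ne_zero
  have h2 : i.1.coeff 2 ≠ 0 := by
    rw [← hdeg]
    exact leadingCoeff_ne_zero.2 h0
  have hinj : Function.Injective (Int.castRingHom ℚ) := RingHom.injective_int _
  have hprim : i.1.IsPrimitive := hirr.isPrimitive (by rw [hdeg]; norm_num)
  have hirrQ : Irreducible (i.1.map (Int.castRingHom ℚ)) :=
    (IsPrimitive.Int.irreducible_iff_irreducible_map_cast hprim).1 hirr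
  have hdegQ : (i.1.map (Int.castRingHom ℚ)).natDegree = 2 := by
    rw [natDegree_map_eq_of_injective hinj, hdeg]
  have hroot : ∀ z : ℚ, ¬ (i.1.map (Int.castRingHom ℚ)).IsRoot z := by
    intro z hz
    have h := degree_eq_one_of_irreducible_of_root hirrQ hz
    rw [degree_eq_natDegree hirrQ.ne_zero, hdegQ] at h
    norm_num at h
  have hform : ∀ z : ℚ, (i.1.map (Int.castRingHom ℚ)).eval z =
      (i.1.coeff 2 : ℚ) * z ^ 2 + i.1.coeff 1 * z + i.1.coeff 0 := by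
    intro z
    rw [eval_eq_sum_range, hdegQ, Finset.sum_range_succ, Finset.sum_range_succ,
      Finset.sum_range_one]
    simp only [coeff_map, eq_intCast]
    ring
  refine ⟨h0, h2, ?_, hsq.ne_zero, ?_⟩
  · intro h
    apply hroot 0
    rw [IsRoot.def, hform, h]
    simp
  · intro h
    rw [h] at hdisc
    have h2Q : (i.1.coeff 2 : ℚ) ≠ 0 := by exact_mod_cast h2
    apply hroot (-(i.1.coeff 1 : ℚ) / (2 * i.1.coeff 2))
    rw [IsRoot.def, hform]
    have h3 : (i.1.coeff 1 : ℚ) ^ 2 - 4 * i.1.coeff 2 * i.1.coeff 0 = 0 := by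
      have : (i.1.coeff 1 : ℤ) ^ 2 - 4 * i.1.coeff 2 * i.1.coeff 0 = 0 := by
        rw [hdisc]; ring
      exact_mod_cast this
    field_simp
    linarith

/-- the sum over the quadratic points -/
theorem sum_quad (ε : ℝ) (hε : 0 < ε) (hε1 : ε ≤ 1) : ∃ K : ℝ, ∀ Z : Finset (ℤ[X] × ℤ × ℤ),
    (∀ i ∈ Z, PQ i) → ∑ i ∈ Z, mm i.1 ^ (-(2 + ε / 2)) / |(i.2.1 : ℝ)| ≤ K := by
  classical
  set δ : ℝ := ε / 6 with hδ
  have hδ0 : 0 < δ := by rw [hδ]; positivity
  have hδ1 : δ ≤ 1 := by rw [hδ]; linarith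
  obtain ⟨Φ, hΦ, hphi⟩ := phi_bound δ hδ0
  obtain ⟨C, hC, hdiv⟩ := int_div (δ / 2) (by positivity)
  set c1 : ℝ := 5 ^ (1 + δ) * 640 ^ ((1 + δ) / 2) * 16 ^ (δ / 2) * 2 with hc1
  have hc10 : 0 ≤ c1 := by rw [hc1]; positivity
  refine ⟨c1 * C * Φ ^ 3, fun Z hZ => ?_⟩
  -- the key bound
  have key : ∀ i ∈ Z, mm i.1 ^ (-(2 + ε / 2)) / |(i.2.1 : ℝ)| ≤
      c1 * (phi δ (i.1.coeff 1) * (phi δ i.2.1 * phi δ i.2.2)) *
        |((i.1.coeff 2 * i.1.coeff 0 : ℤ) : ℝ)| ^ (-(δ / 2)) := by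
    intro i hi
    obtain ⟨h0, h2, h00, hD0, hk0⟩ := PQ_ne (hZ i hi)
    obtain ⟨hirr, hdeg, hsq, hdisc⟩ := hZ i hi
    have hmm := one_le_mm h0
    have hmm0 : 0 < mm i.1 := by linarith
    set M := mm i.1 with hM
    have ha := abs_coeff_le i.1 2
    have hb := abs_coeff_le i.1 1
    have hc := abs_coeff_le i.1 0
    rw [hdeg, ← hM] at ha hb hc
    set α : ℝ := (i.1.coeff 2 : ℝ) with hα
    set β : ℝ := (i.1.coeff 1 : ℝ) with hβ
    set γ : ℝ := (i.1.coeff 0 : ℝ) with hγ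
    have hdR : β ^ 2 - 4 * α * γ = (i.2.1 : ℝ) * (i.2.2 : ℝ) ^ 2 := by
      rw [hα, hβ, hγ]; exact_mod_cast hdisc
    set D0 : ℝ := (i.2.1 : ℝ) with hD0'
    set k : ℝ := (i.2.2 : ℝ) with hk'
    have hD1 : 1 ≤ |D0| := by
      rw [hD0']; exact_mod_cast Int.one_le_abs hD0
    have hk1 : 1 ≤ |k| := by
      rw [hk']; exact_mod_cast Int.one_le_abs hk0
    -- (1)
    have e1 : 1 + |β| ≤ 5 * M := by linarith
    -- (2)
    have hαγ : |α * γ| ≤ 16 * M ^ 2 := by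
      rw [abs_mul]
      calc |α| * |γ| ≤ (2 ^ 2 * M) * (2 ^ 2 * M) :=
            mul_le_mul ha hc (abs_nonneg _) (by positivity)
        _ = _ := by ring
    have hβ2 : |β| ^ 2 ≤ 16 * M ^ 2 := by
      calc |β| ^ 2 ≤ (2 ^ 2 * M) ^ 2 := pow_le_pow_left₀ (abs_nonneg _) hb 2
        _ = _ := by ring
    have e2 : (1 + |D0|) * (1 + |k|) ^ 2 ≤ 640 * M ^ 2 := by
      have h3 : |D0| * |k| ^ 2 ≤ 80 * M ^ 2 := by
        rw [← abs_pow, ← abs_mul, ← hdR]
        calc |β ^ 2 - 4 * α * γ| ≤ |β ^ 2| + |4 * α * γ| := abs_sub _ _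
          _ = |β| ^ 2 + 4 * |α * γ| := by
            rw [abs_pow, mul_assoc, abs_mul, abs_of_nonneg (show (0:ℝ) ≤ 4 by norm_num)]
          _ ≤ _ := by linarith
      have h4 : (1 + |D0|) * (1 + |k|) ^ 2 ≤ (2 * |D0|) * (2 * |k|) ^ 2 := by
        apply mul_le_mul (by linarith) (pow_le_pow_left₀ (by positivity) (by linarith) 2)
          (by positivity) (by positivity)
      nlinarith
    -- the three factors
    have f1 : M ^ (-(1 + δ)) ≤ 5 ^ (1 + δ) * phi δ (i.1.coeff 1) := by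
      unfold phi
      have h6 : (5 * M) ^ (-(1 + δ)) ≤ (1 + |β|) ^ (-(1 + δ)) :=
        Real.rpow_le_rpow_of_nonpos (by positivity) e1 (by linarith)
      rw [Real.mul_rpow (by norm_num) hmm0.le] at h6
      have h7 : (5 : ℝ) ^ (1 + δ) * 5 ^ (-(1 + δ)) = 1 := by
        rw [← Real.rpow_add (by norm_num), add_neg_cancel, Real.rpow_zero]
      calc M ^ (-(1 + δ)) = 5 ^ (1 + δ) * (5 ^ (-(1 + δ)) * M ^ (-(1 + δ))) := by
            rw [← mul_assoc, h7, one_mul]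
        _ ≤ _ := mul_le_mul_of_nonneg_left h6 (by positivity)
    have f2 : M ^ (-(1 + δ)) ≤ 640 ^ ((1 + δ) / 2) *
        ((1 + |D0|) ^ (-((1 + δ) / 2)) * (1 + |k|) ^ (-(1 + δ))) := by
      have h6 : (640 * M ^ 2) ^ (-((1 + δ) / 2)) ≤
          ((1 + |D0|) * (1 + |k|) ^ 2) ^ (-((1 + δ) / 2)) :=
        Real.rpow_le_rpow_of_nonpos (by positivity) e2 (by linarith)
      rw [Real.mul_rpow (by norm_num) (by positivity),
        Real.mul_rpow (by positivity) (by positivity), ← Real.rpow_natCast M 2,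
        ← Real.rpow_natCast (1 + |k|) 2, ← Real.rpow_mul hmm0.le,
        ← Real.rpow_mul (by positivity)] at h6
      have h8 : ((2 : ℕ) : ℝ) * (-((1 + δ) / 2)) = -(1 + δ) := by push_cast; ring
      rw [h8] at h6
      have h7 : (640 : ℝ) ^ ((1 + δ) / 2) * 640 ^ (-((1 + δ) / 2)) = 1 := by
        rw [← Real.rpow_add (by norm_num), add_neg_cancel, Real.rpow_zero]
      calc M ^ (-(1 + δ)) = 640 ^ ((1 + δ) / 2) * (640 ^ (-((1 + δ) / 2)) * M ^ (-(1 + δ))) := by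
            rw [← mul_assoc, h7, one_mul]
        _ ≤ _ := mul_le_mul_of_nonneg_left h6 (by positivity)
    have hαγ0 : 0 < |α * γ| := by
      rw [abs_pos]
      apply mul_ne_zero
      · rw [hα]; exact_mod_cast h2
      · rw [hγ]; exact_mod_cast h00
    have f3 : M ^ (-δ) ≤ 16 ^ (δ / 2) * |α * γ| ^ (-(δ / 2)) := by
      have h6 : (16 * M ^ 2) ^ (-(δ / 2)) ≤ |α * γ| ^ (-(δ / 2)) :=
        Real.rpow_le_rpow_of_nonpos hαγ0 hαγ (by linarith)
      rw [Real.mul_rpow (by norm_num) (by positivity), ← Real.rpow_natCast M 2,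
        ← Real.rpow_mul hmm0.le] at h6
      have h8 : ((2 : ℕ) : ℝ) * (-(δ / 2)) = -δ := by push_cast; ring
      rw [h8] at h6
      have h7 : (16 : ℝ) ^ (δ / 2) * 16 ^ (-(δ / 2)) = 1 := by
        rw [← Real.rpow_add (by norm_num), add_neg_cancel, Real.rpow_zero]
      calc M ^ (-δ) = 16 ^ (δ / 2) * (16 ^ (-(δ / 2)) * M ^ (-δ)) := by
            rw [← mul_assoc, h7, one_mul]
        _ ≤ _ := mul_le_mul_of_nonneg_left h6 (by positivity)
    have f4 : 1 / |D0| ≤ 2 * (1 + |D0|) ^ (-(1 : ℝ)) := by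
      rw [Real.rpow_neg_one, ← div_eq_mul_inv, div_le_div_iff₀ (by linarith) (by positivity)]
      linarith
    have f5 : (1 + |D0|) ^ (-((1 + δ) / 2)) * (1 + |D0|) ^ (-(1 : ℝ)) ≤ phi δ i.2.1 := by
      unfold phi
      rw [← Real.rpow_add (by positivity)]
      apply Real.rpow_le_rpow_of_exponent_le (by linarith)
      linarith
    have hsplit : M ^ (-(2 + ε / 2)) = M ^ (-(1 + δ)) * M ^ (-(1 + δ)) * M ^ (-δ) := by
      rw [← Real.rpow_add hmm0, ← Real.rpow_add hmm0]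
      congr 1
      rw [hδ]
      ring
    have hph1 := phi_nonneg δ (i.1.coeff 1)
    have hph2 := phi_nonneg δ i.2.1
    have hcast : ((i.1.coeff 2 * i.1.coeff 0 : ℤ) : ℝ) = α * γ := by
      rw [Int.cast_mul]
    rw [hcast, hsplit, div_eq_mul_one_div]
    have hphk : phi δ i.2.2 = (1 + |k|) ^ (-(1 + δ)) := rfl
    calc M ^ (-(1 + δ)) * M ^ (-(1 + δ)) * M ^ (-δ) * (1 / |D0|)
        ≤ (5 ^ (1 + δ) * phi δ (i.1.coeff 1)) * (640 ^ ((1 + δ) / 2) *
          ((1 + |D0|) ^ (-((1 + δ) / 2)) * (1 + |k|) ^ (-(1 + δ)))) *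
          (16 ^ (δ / 2) * |α * γ| ^ (-(δ / 2))) * (2 * (1 + |D0|) ^ (-(1 : ℝ))) := by
          apply mul_le_mul (mul_le_mul (mul_le_mul f1 f2 (Real.rpow_nonneg hmm0.le _)
            (by positivity)) f3 (Real.rpow_nonneg hmm0.le _) (by positivity)) f4
            (by positivity) (by positivity)
      _ = c1 * (phi δ (i.1.coeff 1) * (((1 + |D0|) ^ (-((1 + δ) / 2)) *
          (1 + |D0|) ^ (-(1 : ℝ))) * phi δ i.2.2)) * |α * γ| ^ (-(δ / 2)) := by
          rw [hc1, hphk]; ring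
      _ ≤ _ := by
          apply mul_le_mul_of_nonneg_right _ (Real.rpow_nonneg (abs_nonneg _) _)
          apply mul_le_mul_of_nonneg_left _ hc10
          apply mul_le_mul_of_nonneg_left _ hph1
          exact mul_le_mul_of_nonneg_right f5 (phi_nonneg δ i.2.2)
  refine (Finset.sum_le_sum key).trans ?_
  -- fibres
  set g : ℤ[X] × ℤ × ℤ → ℤ × ℤ × ℤ := fun i => (i.1.coeff 1, i.2.1, i.2.2) with hg
  set Y : Finset (ℤ × ℤ × ℤ) := (Z.image fun i => i.1.coeff 1) ×ˢ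
    ((Z.image fun i => i.2.1) ×ˢ (Z.image fun i => i.2.2)) with hY
  have hmap : ∀ i ∈ Z, g i ∈ Y := by
    intro i hi
    rw [hY, Finset.mem_product, Finset.mem_product]
    exact ⟨Finset.mem_image_of_mem (fun i : ℤ[X] × ℤ × ℤ => i.1.coeff 1) hi,
      Finset.mem_image_of_mem (fun i : ℤ[X] × ℤ × ℤ => i.2.1) hi,
      Finset.mem_image_of_mem (fun i : ℤ[X] × ℤ × ℤ => i.2.2) hi⟩
  rw [← Finset.sum_fiberwise_of_maps_to hmap]
  have hfib : ∀ y ∈ Y, ∑ i ∈ Z.filter (fun i => g i = y),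
      c1 * (phi δ (i.1.coeff 1) * (phi δ i.2.1 * phi δ i.2.2)) *
        |((i.1.coeff 2 * i.1.coeff 0 : ℤ) : ℝ)| ^ (-(δ / 2)) ≤
      c1 * C * (phi δ y.1 * (phi δ y.2.1 * phi δ y.2.2)) := by
    intro y _
    by_cases hne : (Z.filter (fun i => g i = y)).Nonempty
    swap
    · rw [Finset.not_nonempty_iff_eq_empty.1 hne, Finset.sum_empty]
      exact mul_nonneg (by positivity) (mul_nonneg (phi_nonneg _ _)
        (mul_nonneg (phi_nonneg _ _) (phi_nonneg _ _)))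
    obtain ⟨i0, hi0⟩ := hne
    obtain ⟨hi0Z, hi0y⟩ := Finset.mem_filter.1 hi0
    set m : ℤ := i0.1.coeff 2 * i0.1.coeff 0 with hm
    have hPQ0 := hZ i0 hi0Z
    have hm0 : m ≠ 0 := mul_ne_zero (PQ_ne hPQ0).2.1 (PQ_ne hPQ0).2.2.1
    have hm1 : ∀ i ∈ Z.filter (fun i => g i = y), i.1.coeff 2 * i.1.coeff 0 = m := by
      intro i hi
      obtain ⟨hiZ, hiy⟩ := Finset.mem_filter.1 hi
      have h1 := (hZ i hiZ).2.2.2
      have h2 := hPQ0.2.2.2
      have h3 : g i = g i0 := hiy.trans hi0y.symm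
      rw [hg] at h3
      simp only [Prod.mk.injEq] at h3
      rw [h3.1, h3.2.1, h3.2.2] at h1
      have h4 : 4 * (i.1.coeff 2 * i.1.coeff 0) = 4 * m := by
        rw [hm]; linarith
      linarith
    have hcard : ((Z.filter (fun i => g i = y)).card : ℝ) ≤ C * |(m : ℝ)| ^ (δ / 2) := by
      have h1 : ((Z.filter (fun i => g i = y)).image (fun i => i.1.coeff 2)).card =
          (Z.filter (fun i => g i = y)).card := by
        apply Finset.card_image_of_injOn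
        intro i hi j hj hij
        have hi' := Finset.mem_coe.1 hi
        have hj' := Finset.mem_coe.1 hj
        obtain ⟨hiZ, hiy⟩ := Finset.mem_filter.1 hi'
        obtain ⟨hjZ, hjy⟩ := Finset.mem_filter.1 hj'
        have h3 : g i = g j := hiy.trans hjy.symm
        rw [hg] at h3
        simp only [Prod.mk.injEq] at h3
        have h4 := hm1 i hi'
        have h5 := hm1 j hj'
        simp only at hij
        rw [← h5, hij] at h4
        have h6 : i.1.coeff 0 = j.1.coeff 0 := mul_left_cancel₀ (PQ_ne (hZ j hjZ)).2.1 h4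
        apply Prod.ext
        · ext n
          rcases Nat.lt_or_ge n 3 with hn | hn
          · interval_cases n
            · exact h6
            · exact h3.1
            · exact hij
          · rw [coeff_eq_zero_of_natDegree_lt, coeff_eq_zero_of_natDegree_lt]
            · rw [(hZ j hjZ).2.1]; omega
            · rw [(hZ i hiZ).2.1]; omega
        · exact Prod.ext h3.2.1 h3.2.2
      rw [← h1]
      apply hdiv m hm0
      intro a ha
      obtain ⟨i, hi, rfl⟩ := Finset.mem_image.1 ha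
      exact ⟨i.1.coeff 0, (hm1 i hi).symm⟩
    have hsum : ∑ i ∈ Z.filter (fun i => g i = y),
        c1 * (phi δ (i.1.coeff 1) * (phi δ i.2.1 * phi δ i.2.2)) *
          |((i.1.coeff 2 * i.1.coeff 0 : ℤ) : ℝ)| ^ (-(δ / 2)) =
        (Z.filter (fun i => g i = y)).card *
          (c1 * (phi δ y.1 * (phi δ y.2.1 * phi δ y.2.2)) * |(m : ℝ)| ^ (-(δ / 2))) := by
      rw [← nsmul_eq_mul, ← Finset.sum_const]
      refine Finset.sum_congr rfl fun i hi => ?_
      have hiy := (Finset.mem_filter.1 hi).2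
      rw [hm1 i hi, ← hiy]
    rw [hsum]
    have hmR : 0 < |(m : ℝ)| := abs_pos.2 (by exact_mod_cast hm0)
    have hpp : 0 ≤ phi δ y.1 * (phi δ y.2.1 * phi δ y.2.2) := mul_nonneg (phi_nonneg _ _)
        (mul_nonneg (phi_nonneg _ _) (phi_nonneg _ _))
    have hmm1 : |(m : ℝ)| ^ (δ / 2) * |(m : ℝ)| ^ (-(δ / 2)) = 1 := by
      rw [← Real.rpow_add hmR, add_neg_cancel, Real.rpow_zero]
    calc _ ≤ (C * |(m : ℝ)| ^ (δ / 2)) *
          (c1 * (phi δ y.1 * (phi δ y.2.1 * phi δ y.2.2)) * |(m : ℝ)| ^ (-(δ / 2))) :=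
          mul_le_mul_of_nonneg_right hcard (mul_nonneg (mul_nonneg hc10 hpp)
            (Real.rpow_nonneg hmR.le _))
      _ = c1 * C * (phi δ y.1 * (phi δ y.2.1 * phi δ y.2.2)) *
          (|(m : ℝ)| ^ (δ / 2) * |(m : ℝ)| ^ (-(δ / 2))) := by ring
      _ = _ := by rw [hmm1, mul_one]
  refine (Finset.sum_le_sum hfib).trans ?_
  rw [← Finset.mul_sum]
  apply mul_le_mul_of_nonneg_left _ (by positivity)
  rw [hY, Finset.sum_product]
  have h2 : ∀ y ∈ (Z.image fun i => i.1.coeff 1), ∑ x ∈ (Z.image fun i => i.2.1) ×ˢ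
      (Z.image fun i => i.2.2), phi δ y * (phi δ x.1 * phi δ x.2) ≤ phi δ y * Φ ^ 2 := by
    intro y _
    rw [← Finset.mul_sum]
    apply mul_le_mul_of_nonneg_left _ (phi_nonneg _ _)
    rw [Finset.sum_product]
    have h3 : ∀ x ∈ (Z.image fun i => i.2.1), ∑ z ∈ (Z.image fun i => i.2.2),
        phi δ x * phi δ z ≤ phi δ x * Φ := by
      intro x _
      rw [← Finset.mul_sum]
      exact mul_le_mul_of_nonneg_left (hphi _) (phi_nonneg _ _)
    refine (Finset.sum_le_sum h3).trans ?_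
    rw [← Finset.sum_mul, pow_two]
    exact mul_le_mul_of_nonneg_right (hphi _) hΦ
  refine (Finset.sum_le_sum h2).trans ?_
  rw [← Finset.sum_mul, pow_succ' Φ 2]
  exact mul_le_mul_of_nonneg_right (hphi _) (by positivity)

end Pool.Agent.R870.RQ
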