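import Mathlib
import Pool.Agent.R870.RQ.Res

set_option autoImplicit false

/-! # The union bound over the points -/

namespace Pool.Agent.R870.RQ

open Polynomial Finset

open Pool.Agent.R870.RC (radS NZ mem_NZ radS_pos sum_radS)

/-- the bad systems for a family of weights -/
def BadW {ι : Type*} {s : ℕ} (d : Fin s → ℕ) (S : Finset ℕ) (ε κ : ℝ) (P : ι → Prop)
    (F : ι → ℤ[X]) (w : ι → ℝ) (H : ℕ) : Set ((i : Fin s) → Fin (d i + 1) → ℤ) :=
  {G | (∀ i k, |G i k| ≤ H) ∧ ∃ a : ι, P a ∧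
    mm (F a) ^ (∑ i, d i) ≤ (H : ℝ) ^ ((s : ℝ) - κ) ∧ (∀ i, res (F a) (G i) ≠ 0) ∧
    ∑ i, N1 S (res (F a) (G i)) ≤ Real.log (w a) +
      ((∑ i, d i : ℕ) - ε / 2) * Real.log (mm (F a)) + κ * Real.log H}

theorem badW_sub {ι : Type*} {s : ℕ} (d : Fin s → ℕ) (S : Finset ℕ) (ε κ : ℝ) (P : ι → Prop)
    (F : ι → ℤ[X]) (w : ι → ℝ) (H : ℕ) :
    BadW d S ε κ P F w H ⊆ ((Fintype.piFinset fun i => box (d i) H : Finset _) : Set _) := by
  intro G hG
  rw [Finset.mem_coe, Fintype.mem_piFinset]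
  exact fun i => mem_box.2 (hG.1 i)

theorem union_bound {ι : Type*} {s : ℕ} (r : ℕ) (hr : 1 ≤ r) (d : Fin s → ℕ)
    (hD : 1 ≤ ∑ i, d i) (S : Finset ℕ) (ε κ : ℝ) (hε : 0 < ε) (hε1 : ε ≤ 1) (hκ : κ < s)
    (P : ι → Prop) (F : ι → ℤ[X]) (w : ι → ℝ) (hw0 : ∀ a, P a → 0 < w a)
    (hF : ∀ a, P a → (F a).natDegree = r) (K : ℝ)
    (hK : ∀ Z : Finset ι, (∀ a ∈ Z, P a) → ∑ a ∈ Z, w a ≤ K) :
    ∃ C : ℝ, 0 ≤ C ∧ ∀ H : ℕ, 1 ≤ H → ((BadW d S ε κ P F w H).ncard : ℝ) ≤
      C * (H : ℝ) ^ (-((s - κ) * ε / (4 * (∑ i, d i : ℕ)))) * (2 * (H : ℝ) + 1) ^ (∑ i, (d i + 1)) := by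
  classical
  set D : ℕ := ∑ i, d i with hDdef
  have hD1 : (1 : ℝ) ≤ D := by exact_mod_cast hD
  have hD0 : (0 : ℝ) < D := by linarith
  have hsk : 0 < (s : ℝ) - κ := by linarith
  set η : ℝ := (s - κ) * ε / (2 * D) with hη
  have hη0 : 0 < η := by rw [hη]; positivity
  have hη2 : (s - κ) * ε / (4 * (D : ℝ)) = η / 2 := by rw [hη]; field_simp; ring
  rw [hη2]
  set A : ℝ := r + s - κ with hA
  have hr1 : (1 : ℝ) ≤ r := by exact_mod_cast hr
  have hA0 : 0 < A := by rw [hA]; linarith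
  set e' : ℝ := η / (2 * (s + 1) * A) with he'
  have hs0 : (0 : ℝ) ≤ s := Nat.cast_nonneg s
  have he0 : 0 < e' := by rw [he']; positivity
  have he1 : s * (A * e') ≤ η / 2 := by
    have h1 : (s + 1 : ℝ) * (A * e') = η / 2 := by rw [he']; field_simp
    nlinarith [mul_pos hA0 he0]
  obtain ⟨C1, hC1, hrad⟩ := sum_radS S e' he0
  have hK0 : 0 ≤ K := by
    have := hK ∅ (by simp)
    simpa using this
  set c1 : ℝ := 2 * ((D : ℝ) + 1) ^ r with hc1
  have hc10 : 0 < c1 := by rw [hc1]; positivity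
  refine ⟨K * (r * (C1 * c1 ^ e')) ^ s, by positivity, fun H hH => ?_⟩
  have hHr : (1 : ℝ) ≤ H := by exact_mod_cast hH
  have hH0 : (0 : ℝ) < H := by linarith
  -- the bound for the values
  set T : ℕ := ⌈(((D : ℝ) + 1) * H) ^ r * (H : ℝ) ^ ((s : ℝ) - κ)⌉₊ with hT
  have hTle : ((((D : ℝ) + 1) * H) ^ r * (H : ℝ) ^ ((s : ℝ) - κ)) ≤ T := Nat.le_ceil _
  have hT0 : 1 ≤ (((D : ℝ) + 1) * H) ^ r * (H : ℝ) ^ ((s : ℝ) - κ) := by
    apply one_le_mul_of_one_le_of_one_le
    · apply one_le_pow₀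
      nlinarith
    · exact Real.one_le_rpow hHr hsk.le
  have hT1 : 1 ≤ T := by
    have : (1 : ℝ) ≤ T := hT0.trans hTle
    exact_mod_cast this
  have hTu : (T : ℝ) ≤ c1 * (H : ℝ) ^ A := by
    have h1 : (T : ℝ) < (((D : ℝ) + 1) * H) ^ r * (H : ℝ) ^ ((s : ℝ) - κ) + 1 :=
      Nat.ceil_lt_add_one (by linarith)
    have h2 : (((D : ℝ) + 1) * H) ^ r * (H : ℝ) ^ ((s : ℝ) - κ) =
        ((D : ℝ) + 1) ^ r * (H : ℝ) ^ A := by
      rw [mul_pow, mul_assoc, ← Real.rpow_natCast (H : ℝ) r, ← Real.rpow_add hH0, hA]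
      congr 2
      ring
    rw [hc1]
    rw [h2] at h1 hT0
    linarith
  have hradT : ∑ t ∈ NZ T, (1 : ℝ) / radS S t ≤ (C1 * c1 ^ e') * (H : ℝ) ^ (A * e') := by
    refine (hrad T hT1).trans ?_
    rw [mul_assoc]
    apply mul_le_mul_of_nonneg_left _ hC1.le
    calc (T : ℝ) ^ e' ≤ (c1 * (H : ℝ) ^ A) ^ e' :=
          Real.rpow_le_rpow (Nat.cast_nonneg _) hTu he0.le
      _ = c1 ^ e' * (H : ℝ) ^ (A * e') := by
          rw [Real.mul_rpow hc10.le (Real.rpow_nonneg hH0.le _), Real.rpow_mul hH0.le]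
  -- the choice of the points
  have hfin : (BadW d S ε κ P F w H).Finite := (Finset.finite_toSet _).subset (badW_sub _ _ _ _ _ _ _ _)
  have hex : ∀ G : {G // G ∈ BadW d S ε κ P F w H}, ∃ a : ι, P a ∧
      mm (F a) ^ D ≤ (H : ℝ) ^ ((s : ℝ) - κ) ∧ (∀ i, res (F a) (G.1 i) ≠ 0) ∧
      ∑ i, N1 S (res (F a) (G.1 i)) ≤ Real.log (w a) +
        (D - ε / 2) * Real.log (mm (F a)) + κ * Real.log H := fun G => G.2.2
  choose ch hch using hex
  have : Fintype {G // G ∈ BadW d S ε κ P F w H} := hfin.fintype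
  set Z : Finset ι := Finset.univ.image ch with hZ
  have hZP : ∀ a ∈ Z, P a := by
    intro a ha
    obtain ⟨G, _, rfl⟩ := Finset.mem_image.1 ha
    exact (hch G).1
  have hZm : ∀ a ∈ Z, mm (F a) ^ D ≤ (H : ℝ) ^ ((s : ℝ) - κ) := by
    intro a ha
    obtain ⟨G, _, rfl⟩ := Finset.mem_image.1 ha
    exact (hch G).2.1
  have hcov : BadW d S ε κ P F w H ⊆
      ((Z.biUnion fun a => badf d S H (w a * (H : ℝ) ^ (s - η)) (F a) : Finset _) : Set _) := by
    intro G hG
    rw [Finset.mem_coe, Finset.mem_biUnion]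
    refine ⟨ch ⟨G, hG⟩, Finset.mem_image_of_mem _ (Finset.mem_univ _), ?_⟩
    obtain ⟨hP, hm, hne, hN⟩ := hch ⟨G, hG⟩
    set a := ch ⟨G, hG⟩ with ha
    unfold badf
    rw [Finset.mem_filter]
    refine ⟨Finset.mem_coe.1 (badW_sub _ _ _ _ _ _ _ _ hG), hne, ?_⟩
    have hF0 : F a ≠ 0 := by
      intro h
      have := hF a hP
      rw [h, natDegree_zero] at this
      omega
    have hmm := one_le_mm hF0
    have hmm0 : 0 < mm (F a) := by linarith
    have hw := hw0 a hP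
    have h1 : ∑ i, N1 S (res (F a) (G i)) =
        Real.log ((∏ i, radS S (res (F a) (G i)) : ℕ) : ℝ) := by
      rw [Nat.cast_prod, Real.log_prod]
      · exact Finset.sum_congr rfl fun i _ => N1_eq S _
      · intro i _
        have := radS_pos S (res (F a) (G i))
        exact_mod_cast this.ne'
    rw [h1] at hN
    have h2 : (0 : ℝ) < ((∏ i, radS S (res (F a) (G i)) : ℕ) : ℝ) := by
      have : 0 < ∏ i, radS S (res (F a) (G i)) := Finset.prod_pos fun i _ => radS_pos S _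
      exact_mod_cast this
    rw [← Real.log_le_log_iff h2 (mul_pos hw (Real.rpow_pos_of_pos hH0 _)),
      Real.log_mul hw.ne' (Real.rpow_pos_of_pos hH0 _).ne', Real.log_rpow hH0]
    refine hN.trans ?_
    -- log of the condition for the height
    have h3 : (D : ℝ) * Real.log (mm (F a)) ≤ (s - κ) * Real.log H := by
      have := Real.log_le_log (pow_pos hmm0 D) hm
      rwa [Real.log_pow, Real.log_rpow hH0] at this
    have h4 : (D - ε / 2) * Real.log (mm (F a)) ≤ (s - κ - η) * Real.log H := by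
      have h5 : (D - ε / 2) * Real.log (mm (F a)) =
          (1 - ε / (2 * D)) * (D * Real.log (mm (F a))) := by field_simp
      have h6 : (s - κ - η) * Real.log H = (1 - ε / (2 * D)) * ((s - κ) * Real.log H) := by
        rw [hη]; field_simp
      have h7 : 0 ≤ 1 - ε / (2 * (D : ℝ)) := by
        rw [sub_nonneg, div_le_one (by positivity)]
        linarith
      rw [h5, h6]
      exact mul_le_mul_of_nonneg_left h3 h7
    have h8 : (s - κ - η) * Real.log H + κ * Real.log H = (s - η) * Real.log H := by ring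
    linarith
  have h1 : ((BadW d S ε κ P F w H).ncard : ℝ) ≤
      ((Z.biUnion fun a => badf d S H (w a * (H : ℝ) ^ (s - η)) (F a)).card : ℝ) := by
    have := Set.ncard_le_ncard hcov (Finset.finite_toSet _)
    rw [Set.ncard_coe_finset] at this
    exact_mod_cast this
  have h2 : ((Z.biUnion fun a => badf d S H (w a * (H : ℝ) ^ (s - η)) (F a)).card : ℝ) ≤
      ∑ a ∈ Z, ((badf d S H (w a * (H : ℝ) ^ (s - η)) (F a)).card : ℝ) := by
    exact_mod_cast Finset.card_biUnion_le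
  refine (h1.trans h2).trans ?_
  -- the count for one point
  have h3 : ∀ a ∈ Z, ((badf d S H (w a * (H : ℝ) ^ (s - η)) (F a)).card : ℝ) ≤
      w a * ((H : ℝ) ^ (s - η) * ((r * (C1 * c1 ^ e')) ^ s * (H : ℝ) ^ (η / 2) *
        (2 * (H : ℝ) + 1) ^ D)) := by
    intro a ha
    have hw := hw0 a (hZP a ha)
    have hdeg := hF a (hZP a ha)
    have hF0 : F a ≠ 0 := by
      intro h
      rw [h, natDegree_zero] at hdeg
      omega
    have hmm := one_le_mm hF0
    have h4 := card_badf d S H T (w a * (H : ℝ) ^ (s - η)) (by positivity) (F a)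
      (by rw [hdeg]; exact hr) (by
        intro i
        rw [hdeg]
        refine le_trans ?_ hTle
        have h5 : (d i : ℝ) ≤ D := by
          exact_mod_cast Finset.single_le_sum (f := d) (fun j _ => Nat.zero_le _) (Finset.mem_univ i)
        have h6 : mm (F a) ^ d i ≤ (H : ℝ) ^ ((s : ℝ) - κ) :=
          (pow_le_pow_right₀ hmm (Finset.single_le_sum (f := d) (fun j _ => Nat.zero_le _)
            (Finset.mem_univ i))).trans (hZm a ha)
        apply mul_le_mul _ h6 (by positivity) (by positivity)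
        apply pow_le_pow_left₀ (by positivity)
        exact mul_le_mul_of_nonneg_right (by linarith) hH0.le)
    refine h4.trans ?_
    rw [mul_assoc]
    apply mul_le_mul_of_nonneg_left _ hw.le
    apply mul_le_mul_of_nonneg_left _ (Real.rpow_nonneg hH0.le _)
    rw [hdeg]
    calc ∏ i, ((r * (2 * (H : ℝ) + 1) ^ d i) * ∑ t ∈ NZ T, (1 : ℝ) / radS S t)
        ≤ ∏ i : Fin s, ((r * (2 * (H : ℝ) + 1) ^ d i) * ((C1 * c1 ^ e') * (H : ℝ) ^ (A * e'))) := by
          apply Finset.prod_le_prod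
          · intro i _
            exact mul_nonneg (by positivity)
              (Finset.sum_nonneg fun t _ => div_nonneg zero_le_one (Nat.cast_nonneg _))
          · intro i _
            exact mul_le_mul_of_nonneg_left hradT (by positivity)
      _ = (r * (C1 * c1 ^ e')) ^ s * ((H : ℝ) ^ (A * e')) ^ s * (2 * (H : ℝ) + 1) ^ D := by
          rw [Finset.prod_mul_distrib, Finset.prod_mul_distrib, Finset.prod_pow_eq_pow_sum,
            Finset.prod_const, Finset.prod_const, Finset.card_univ, Fintype.card_fin, ← hDdef]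
          rw [mul_pow, mul_pow (r : ℝ)]
          ring
      _ ≤ _ := by
          apply mul_le_mul_of_nonneg_right _ (by positivity)
          apply mul_le_mul_of_nonneg_left _ (by positivity)
          rw [← Real.rpow_natCast, ← Real.rpow_mul hH0.le]
          apply Real.rpow_le_rpow_of_exponent_le hHr
          linarith
  refine (Finset.sum_le_sum h3).trans ?_
  rw [← Finset.sum_mul]
  refine (mul_le_mul_of_nonneg_right (hK Z hZP) (by positivity)).trans ?_
  have h5 : (H : ℝ) ^ (s - η) * (H : ℝ) ^ (η / 2) = (H : ℝ) ^ s * (H : ℝ) ^ (-(η / 2)) := by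
    rw [← Real.rpow_natCast (H : ℝ) s, ← Real.rpow_add hH0, ← Real.rpow_add hH0]
    congr 1
    ring
  have h6 : (H : ℝ) ^ s ≤ (2 * (H : ℝ) + 1) ^ s := pow_le_pow_left₀ hH0.le (by linarith) _
  have h7 : ∑ i, (d i + 1) = D + s := by
    rw [Finset.sum_add_distrib, ← hDdef]
    simp
  calc K * ((H : ℝ) ^ (s - η) * ((r * (C1 * c1 ^ e')) ^ s * (H : ℝ) ^ (η / 2) *
        (2 * (H : ℝ) + 1) ^ D))
      = K * (r * (C1 * c1 ^ e')) ^ s * ((H : ℝ) ^ (s - η) * (H : ℝ) ^ (η / 2)) *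
        (2 * (H : ℝ) + 1) ^ D := by ring
    _ = (K * (r * (C1 * c1 ^ e')) ^ s * (H : ℝ) ^ (-(η / 2)) * (2 * (H : ℝ) + 1) ^ D) *
        (H : ℝ) ^ s := by rw [h5]; ring
    _ ≤ (K * (r * (C1 * c1 ^ e')) ^ s * (H : ℝ) ^ (-(η / 2)) * (2 * (H : ℝ) + 1) ^ D) *
        (2 * (H : ℝ) + 1) ^ s := mul_le_mul_of_nonneg_left h6 (by positivity)
    _ = _ := by rw [h7, pow_add]; ring

end Pool.Agent.R870.RQ
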