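import Mathlib
import Pool.Agent.R870.RQ.Union
import Pool.Agent.R870.RQ.Sum

set_option autoImplicit false

/-! # Random divisors on the projective line and points of bounded degree -/

namespace Pool.Agent.R870.RQ

open Polynomial Finset

/-- the weight for the points of degree `r` -/
noncomputable def w1 (r : ℕ) (ε : ℝ) (f : ℤ[X]) : ℝ := mm f ^ (-((r : ℝ) + 1 + ε / 2))

/-- the weight for the quadratic points -/
noncomputable def w2 (ε : ℝ) (i : ℤ[X] × ℤ × ℤ) : ℝ :=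
  mm i.1 ^ (-(2 + ε / 2)) / |(i.2.1 : ℝ)|

theorem bad_sub {s : ℕ} (r : ℕ) (d : Fin s → ℕ) (S : Finset ℕ) (ε κ : ℝ) (H : ℕ) :
    Bad r d S ε κ H ⊆ (⋃ q ∈ Finset.Icc 1 r, BadW d S (min ε 1) κ
      (fun f : ℤ[X] => f.natDegree = q ∧ f ≠ 0) id (w1 q (min ε 1)) H) ∪
      BadW d S (min ε 1) κ PQ Prod.fst (w2 (min ε 1)) H := by
  intro G hG
  obtain ⟨hG1, f, hirr, hd1, hd2, hm, hne, hI⟩ := hG
  have hf0 : f ≠ 0 := hirr.ne_zero
  have hmm := one_le_mm hf0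
  have hmm0 : 0 < mm f := by linarith
  have hlog : 0 ≤ Real.log (mm f) := Real.log_nonneg hmm
  have hεmin : min ε 1 ≤ ε := min_le_left _ _
  have hl : (min ε 1) * Real.log (mm f) ≤ ε * Real.log (mm f) :=
    mul_le_mul_of_nonneg_right hεmin hlog
  rw [not_and_or, Classical.not_imp] at hI
  rcases hI with hI | ⟨hq, hI⟩
  · left
    rw [Set.mem_iUnion₂]
    refine ⟨f.natDegree, Finset.mem_Icc.2 ⟨hd1, hd2⟩, hG1, f, ⟨rfl, hf0⟩, hm, hne, ?_⟩
    unfold Ineq at hI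
    rw [not_le] at hI
    refine hI.le.trans ?_
    unfold w1
    rw [Real.log_rpow hmm0, id]
    nlinarith
  · right
    unfold IneqQ at hI
    push Not at hI
    obtain ⟨D₀, k, hsq, hdisc, hI⟩ := hI
    refine ⟨hG1, (f, D₀, k), ⟨hirr, hq, hsq, hdisc⟩, hm, hne, ?_⟩
    refine hI.le.trans ?_
    unfold w2
    have hD0 : |(D₀ : ℝ)| ≠ 0 := by
      rw [abs_ne_zero]
      exact_mod_cast hsq.ne_zero
    simp only
    rw [Real.log_div (Real.rpow_pos_of_pos hmm0 _).ne' hD0, Real.log_rpow hmm0]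
    nlinarith

/-- **Random divisors on the projective line and points of bounded degree.** -/
theorem random_divisors {s : ℕ} (r : ℕ) (d : Fin s → ℕ) (hD : 1 ≤ ∑ i, d i) (S : Finset ℕ)
    (ε κ : ℝ) (hε : 0 < ε) (hκ : κ < s) : ∃ δ C : ℝ, 0 < δ ∧ ∀ H : ℕ, 1 ≤ H →
      ((Bad r d S ε κ H).ncard : ℝ) ≤
        C * (H : ℝ) ^ (-δ) * (2 * (H : ℝ) + 1) ^ (∑ i, (d i + 1)) := by
  classical
  have hε0 : 0 < min ε 1 := lt_min hε one_pos
  have hε1 : min ε 1 ≤ 1 := min_le_right _ _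
  have hD1 : (1 : ℝ) ≤ (∑ i, d i : ℕ) := by exact_mod_cast hD
  have hsk : 0 < (s : ℝ) - κ := by linarith
  have h1 : ∀ q : ℕ, ∃ C : ℝ, 0 ≤ C ∧ (1 ≤ q → ∀ H : ℕ, 1 ≤ H → ((BadW d S (min ε 1) κ
      (fun f : ℤ[X] => f.natDegree = q ∧ f ≠ 0) id (w1 q (min ε 1)) H).ncard : ℝ) ≤
      C * (H : ℝ) ^ (-((s - κ) * (min ε 1) / (4 * (∑ i, d i : ℕ)))) *
        (2 * (H : ℝ) + 1) ^ (∑ i, (d i + 1))) := by
    intro q
    by_cases hq : 1 ≤ q
    · obtain ⟨K, hK⟩ := sum_deg q (min ε 1) hε0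
      obtain ⟨C, hC, h⟩ := union_bound q hq d hD S (min ε 1) κ hε0 hε1 hκ
        (fun f : ℤ[X] => f.natDegree = q ∧ f ≠ 0) id (w1 q (min ε 1))
        (fun f hf => Real.rpow_pos_of_pos (by linarith [one_le_mm hf.2]) _)
        (fun f hf => hf.1) K (fun Z hZ => hK Z hZ)
      exact ⟨C, hC, fun _ => h⟩
    · exact ⟨0, le_refl _, fun h => absurd h hq⟩
  choose C hC hCb using h1
  obtain ⟨K, hK⟩ := sum_quad (min ε 1) hε0 hε1
  obtain ⟨C2, hC2, h2⟩ := union_bound 2 (by norm_num) d hD S (min ε 1) κ hε0 hε1 hκ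
    PQ Prod.fst (w2 (min ε 1))
    (fun i hi => div_pos (Real.rpow_pos_of_pos (by linarith [one_le_mm (PQ_ne hi).1]) _)
      (abs_pos.2 (by exact_mod_cast (PQ_ne hi).2.2.2.1)))
    (fun i hi => hi.2.1) K (fun Z hZ => hK Z hZ)
  refine ⟨(s - κ) * (min ε 1) / (4 * (∑ i, d i : ℕ)), (∑ q ∈ Finset.Icc 1 r, C q) + C2,
    by positivity, fun H hH => ?_⟩
  have hfin1 : ∀ q : ℕ, (BadW d S (min ε 1) κ
      (fun f : ℤ[X] => f.natDegree = q ∧ f ≠ 0) id (w1 q (min ε 1)) H).Finite := fun q =>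
    (Finset.finite_toSet _).subset (badW_sub _ _ _ _ _ _ _ _)
  have hfin2 : (BadW d S (min ε 1) κ PQ Prod.fst (w2 (min ε 1)) H).Finite :=
    (Finset.finite_toSet _).subset (badW_sub _ _ _ _ _ _ _ _)
  have hfinU : (⋃ q ∈ Finset.Icc 1 r, BadW d S (min ε 1) κ
      (fun f : ℤ[X] => f.natDegree = q ∧ f ≠ 0) id (w1 q (min ε 1)) H).Finite :=
    Set.Finite.biUnion (Finset.finite_toSet _) fun q _ => hfin1 q
  have h3 := (Set.ncard_le_ncard (bad_sub r d S ε κ H) (hfinU.union hfin2)).trans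
    (Set.ncard_union_le _ _)
  have h4 : (⋃ q ∈ Finset.Icc 1 r, BadW d S (min ε 1) κ
      (fun f : ℤ[X] => f.natDegree = q ∧ f ≠ 0) id (w1 q (min ε 1)) H).ncard ≤
      ∑ q ∈ Finset.Icc 1 r, (BadW d S (min ε 1) κ
      (fun f : ℤ[X] => f.natDegree = q ∧ f ≠ 0) id (w1 q (min ε 1)) H).ncard :=
    Finset.set_ncard_biUnion_le _ _
  have h5 : ((Bad r d S ε κ H).ncard : ℝ) ≤ ∑ q ∈ Finset.Icc 1 r, ((BadW d S (min ε 1) κ
      (fun f : ℤ[X] => f.natDegree = q ∧ f ≠ 0) id (w1 q (min ε 1)) H).ncard : ℝ) +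
      ((BadW d S (min ε 1) κ PQ Prod.fst (w2 (min ε 1)) H).ncard : ℝ) := by
    exact_mod_cast h3.trans (Nat.add_le_add_right h4 _)
  refine h5.trans ?_
  rw [add_mul, add_mul, Finset.sum_mul, Finset.sum_mul]
  apply add_le_add _ (h2 H hH)
  apply Finset.sum_le_sum
  intro q hq
  exact hCb q (Finset.mem_Icc.1 hq).1 H hH

end Pool.Agent.R870.RQ
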